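import Pool.Agent.Run7.h132.FJ.Tower
import Pool.Agent.Run7.h105.FJ.Low

/-!
# Extensions with kernels in products of free-by-solvable groups, and stably free modules

`C` is any class of groups with the closure properties `ClosedE C` which contains the solvable groups and
the groups `F ⋊ ℤ` for all free groups `F` and all automorphisms of `F`. All this is published for the
class of the groups which satisfy the Full Farrell–Jones Conjecture (Bartels, Lück, Wegner; Brück, Kielak
and Wu for `F ⋊ ℤ`).

The torsion-free groups in this class satisfy the assertion of Q1: all finitely generated projective
`ℤ[G]`-modules are stably free (Bartels, Lück and Reich), which is the hypothesis `hP`. So Q1 holds for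
all torsion-free subgroups of the groups below: `TfSub StablyFree G` says that all finitely generated
projective `ℤ[H]`-modules are stably free for all torsion-free groups `H` which embed in `G`.

The statement on `C` is due to helper132 (first handed in as `MP_2a0850_gt.KernelsInProducts`).

`Pool.Agent.Run7.h132.FJ.VirtProd N` says that a subgroup of finite index of `N` embeds in a finite direct
product of groups which have free normal subgroups (of any rank) with solvable quotients. There is no
finiteness condition on `N`. Such groups `N` are, for instance,

* all subgroups of finite direct products of free groups and surface groups (the commutator subgroup of a
  surface group is free), like the groups of Stallings and Bieri, and many fundamental groups of compact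
  Kähler manifolds; all finitely generated residually free groups, because these embed in finite direct
  products of limit groups, which are free-by-nilpotent;
* the fundamental groups of the compact 3-manifolds which are finitely covered by surface bundles over
  the circle: by the theorems of Agol, Wise, Przytycki and Wise these are the aspherical compact 3-manifolds
  except for some closed graph manifolds (Seifert manifolds are covered, too);
* virtually solvable groups, and the finite direct products of all these groups.

`Pool.Agent.Run7.h132.FJ.Tower C N` says that `N` has an ascending series of normal subgroups of `G` with
such factors, or factors which are locally finite, or which have a trivial centre and an automorphism group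
in `C` (for instance lattices to which Mostow's theorem applies, mapping class groups).

So Q1 holds for the fundamental groups of the closed aspherical manifolds which are total spaces of
iterated fibre bundles, with fibres that are surfaces, infrasolvmanifolds, 3-manifolds as above, locally
symmetric spaces satisfying Mostow rigidity or products of such manifolds, over a base with a
fundamental group in `C`; no condition is imposed on the monodromy.

Outline of the proof.

* Let `L` be a subgroup of a finite direct product of free groups `F i` and let the number of the factors be
  minimal modulo the centre of `L`. Then the subgroups `L i = L ∩ F i` and their centralizers `L ∩ ∏ F j`,
  `j ≠ i`, are permuted by all automorphisms of `L`: for an element `x` of `L` the elements which commute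
  with all commutators of elements of the centralizer of `x` are those whose support is contained in the
  support of `x`. This uses that commuting is transitive and that centralizers are malnormal in
  free groups. Hence a subgroup of finite index of `G` has a normal series from `L` to the centre of `L`
  whose factors are free groups, even if the groups `L / ∏ L i` are wild.
* If a subgroup `H` of finite index of `N` embeds in a direct product of groups which are free-by-(solvable
  of length at most `k`), then `N₁`, the intersection of the conjugates of `H` in `G`, is a normal subgroup
  of `G` with `N / N₁` locally finite, and the `k`-th derived subgroup of `N₁` is a subgroup of a direct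
  product of free groups.
-/

set_option autoImplicit false

namespace Pool.Agent.Results.MP_551055_al.KernelsInProducts

open Pool.Agent.Y110.FJ Pool.Agent.Run7.h132.FJ
open Run7.h105.FJ (TorsionFree StablyFree TfSub tfSub)

/-- Let `C` be a class of groups with the closure properties `ClosedE C` which contains all groups
`F ⋊ ℤ`, `F` free, and all solvable groups. Let `N` be a normal subgroup of `G` with `G ⧸ N` in `C`. If
(1) a subgroup of finite index of `N` embeds in a finite direct product of free-by-solvable groups, or
(2) `N` has an ascending series of normal subgroups of `G` whose factors are as in (1), or locally finite,
or have a trivial centre and a group of automorphisms in `C`, then `G` is in `C`, and Q1 holds for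
all torsion-free subgroups of `G`. -/
theorem result (C : ∀ (G : Type) [Group G], Prop) (hC : ClosedE C)
    (hF : ∀ (X : Type) (α : MulAut (FreeGroup X)),
      C (FreeGroup X ⋊[zpowersHom (MulAut (FreeGroup X)) α] Multiplicative ℤ))
    (hS : ∀ (S : Type) [Group S], Group.IsSolvable S → C S)
    (hP : ∀ (G : Type) [Group G], C G → TorsionFree G → StablyFree G)
    (G : Type) [Group G] (N : Subgroup G) [N.Normal] (hQ : C (G ⧸ N)) :
    (VirtProd N → C G ∧ TfSub StablyFree G) ∧ (Tower C N → C G ∧ TfSub StablyFree G) :=
  ⟨fun h => ⟨vp_ext hC hF hS N h hQ, tfSub hC hP G (vp_ext hC hF hS N h hQ)⟩,
    fun h => ⟨tower_ext hC hF hS N h hQ, tfSub hC hP G (tower_ext hC hF hS N h hQ)⟩⟩

end Pool.Agent.Results.MP_551055_al.KernelsInProducts
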