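import Pool.Agent.Run7.h909.TD.Trees

/-!
# Groups acting on complexes of dimension two and of nonpositive curvature

Problem `MP_551055_al`, question Q1 (stable freeness of projective modules over integral group rings of
torsion-free groups).

Let `C` be a class of groups with the closure properties `ClosedE` (`C` contains the infinite cyclic group,
it is closed under subgroups, finite products, free products, overgroups of finite index and directed
colimits, and it satisfies the extension criterion). Suppose also `CatC C`: the class contains the groups
which act properly and cocompactly by isometries on a simply connected locally finite piecewise Euclidean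
complex of dimension two and of nonpositive curvature. All this is known for the class of the groups whose
wreath products with finite groups satisfy the K-theoretic Farrell-Jones conjecture with coefficients in
additive categories (Wegner for `CatC`). For torsion-free groups `G` in this class all finitely generated
projective modules over `ℤ[G]` are stably free (Bartels-Lück-Reich, see the problem file), which is the
assertion of Q1. So Q1 holds for all torsion-free groups `G` as below.

This theorem of helper909 was first handed in for the K-theoretic conjecture for all groups and rings
(`MP_e40716_gt.TwoDimensionalComplexes`).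

A piecewise Euclidean complex of dimension two is described by a graph `T`, by the set `F` of the closed
edge paths along which convex Euclidean polygons are glued in, by the lengths `ℓ` of the edges and by the
angles `w` of the polygons; the structure `Cx` contains Gromov's link condition. There may be infinitely
many isometry types of polygons, and the complex is not supposed to be locally finite.

* `Main`: Let `G` act by isometries on a simply connected complex `X` of this kind such that each element
  fixing a vertex `x` has a power fixing a given neighbour of `x` (this holds if `X` is locally finite and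
  also if the stabilizers are torsion groups). Suppose that for each vertex `x` there is a homomorphism
  from `G` to a group in `C` whose kernel meets the stabilizer of `x` in a finite group. Then `G` is
  in `C`. There is no cocompactness assumption and `G` need not be finitely generated.
* `Proper`: each group which acts on such a complex with finite stabilizers of vertices is in `C`.
* `Products`: Let `G` act on two trees and suppose that for all vertices `x` of the first and `y` of the
  second tree the elements of the stabilizer of `x` and `y` have powers fixing given neighbours, and that
  there is a homomorphism from `G` to a group in `C` whose kernel meets the stabilizer of `x` and `y` in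
  a finite group. Then `G` is in `C`.
* `ProductsProper`: each group which acts on two trees such that the group of the elements fixing a vertex
  of the first and a vertex of the second tree is always finite is in `C`.

Examples: all discrete subgroups, cocompact or not, of the automorphism groups of locally finite
two-dimensional buildings and of products of two trees; the Kac-Moody groups over finite fields whose
Weyl group is a free product of groups of order two (they act on the product of their twin trees with
finite stabilizers, but with infinitely many orbits); extensions of groups in `C` with such kernels `N` if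
the action of `N` extends to the extension; subgroups of `Aut(X) × L` with `L` in `C` which meet `Aut(X)`
in a group acting properly.

The proof. A subcomplex of a complex of dimension two and of nonpositive curvature has nonpositive
curvature too. Let `H` be a finitely generated subgroup of `G` and `Y` a connected `H`-invariant subcomplex
with finitely many orbits of cells. The group of the lifts of the elements of `H` to the universal cover
of `Y` acts on the universal cover, and `G` is the directed colimit of these groups (`TD.col`), with the
kernels killed in larger complexes because `X` is simply connected. If the stabilizers are finite, these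
groups are in `C` by `CatC C`. If the stabilizers are virtually cyclic and given by one homomorphism `f` to the
integers, then either the stabilizers are finite or there is an infinite cyclic central subgroup
(`TD.exists_central`), whose quotient acts with finite stabilizers, and the extension criterion applies
to a homomorphism to this quotient and `ℤ` (`TD.thmZ`). In general the preimages of cyclic
subgroups under the given homomorphism act with such stabilizers (`TD.main`). Simple connectedness of the
product of trees is proved in `TD.sc_prod`, the link condition in `TD.cx_prod`.
-/

set_option autoImplicit false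

namespace Pool.Agent.Results.MP_551055_al.TwoDimensionalComplexes

open Run7.h909.TD
open Pool.Agent.Y110.FJ (ClosedE)
open SimpleGraph

/-- actions on complexes of dimension two with a homomorphism controlling the stabilizers -/
def Main (C : ∀ (G : Type) [Group G], Prop) : Prop :=
  ∀ (G V : Type) [Group G] [MulAction G V] (T : SimpleGraph V) (F : Set (ℤ → V))
    (ℓ : V → V → ℝ) (w : (ℤ → V) → ℝ),
    Cx T F ℓ w → SC T F → Ac G T F → Mi G T F ℓ w →
    (∀ x y : V, T.Adj x y → ∀ g : G, g • x = x → ∃ n : ℕ, 0 < n ∧ g ^ n • y = y) →
    (∀ x : V, ∃ (P : Type) (_ : Group P) (f : G →* P), C P ∧ {g : G | g • x = x ∧ f g = 1}.Finite) →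
    C G

/-- actions on complexes of dimension two with finite stabilizers -/
def Proper (C : ∀ (G : Type) [Group G], Prop) : Prop :=
  ∀ (G V : Type) [Group G] [MulAction G V] (T : SimpleGraph V) (F : Set (ℤ → V))
    (ℓ : V → V → ℝ) (w : (ℤ → V) → ℝ),
    Cx T F ℓ w → SC T F → Ac G T F → Mi G T F ℓ w → (∀ x : V, {g : G | g • x = x}.Finite) → C G

/-- actions on products of two trees with a homomorphism controlling the stabilizers -/
def Products (C : ∀ (G : Type) [Group G], Prop) : Prop :=
  ∀ (G V₁ V₂ : Type) [Group G] [MulAction G V₁] [MulAction G V₂] (T₁ : SimpleGraph V₁)
    (T₂ : SimpleGraph V₂), T₁.IsTree → T₂.IsTree →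
    (∀ (g : G) (x y : V₁), T₁.Adj x y → T₁.Adj (g • x) (g • y)) →
    (∀ (g : G) (x y : V₂), T₂.Adj x y → T₂.Adj (g • x) (g • y)) →
    (∀ (x : V₁) (y : V₂) (g : G), g • x = x → g • y = y →
      (∀ x', T₁.Adj x x' → ∃ n : ℕ, 0 < n ∧ g ^ n • x' = x') ∧
      ∀ y', T₂.Adj y y' → ∃ n : ℕ, 0 < n ∧ g ^ n • y' = y') →
    (∀ (x : V₁) (y : V₂), ∃ (P : Type) (_ : Group P) (f : G →* P), C P ∧
      {g : G | g • x = x ∧ g • y = y ∧ f g = 1}.Finite) → C G

/-- actions on two trees such that the intersections of the stabilizers are finite -/
def ProductsProper (C : ∀ (G : Type) [Group G], Prop) : Prop :=
  ∀ (G V₁ V₂ : Type) [Group G] [MulAction G V₁] [MulAction G V₂] (T₁ : SimpleGraph V₁)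
    (T₂ : SimpleGraph V₂), T₁.IsTree → T₂.IsTree →
    (∀ (g : G) (x y : V₁), T₁.Adj x y → T₁.Adj (g • x) (g • y)) →
    (∀ (g : G) (x y : V₂), T₂.Adj x y → T₂.Adj (g • x) (g • y)) →
    (∀ (x : V₁) (y : V₂), {g : G | g • x = x ∧ g • y = y}.Finite) → C G

/-- an element of a finite stabilizer has a power which is trivial -/
theorem pow_one_of_finite {G : Type} [Group G] (H : Subgroup G) (hH : (H : Set G).Finite) {g : G}
    (hg : g ∈ H) : ∃ n : ℕ, 0 < n ∧ g ^ n = 1 := by
  have : Finite H := hH.to_subtype
  obtain ⟨n, hn, h⟩ := isOfFinOrder_iff_pow_eq_one.1 (isOfFinOrder_of_finite (⟨g, hg⟩ : H))
  exact ⟨n, hn, congrArg Subtype.val h⟩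

/-- **The Farrell-Jones class contains the groups acting properly on complexes of dimension two and of
nonpositive curvature, without cocompactness, and the groups acting on such complexes whose stabilizers
are controlled by homomorphisms to groups in the class.** -/
theorem result (C : ∀ (G : Type) [Group G], Prop) (hC : ClosedE C) (hcat : CatC C) :
    Main C ∧ Proper C ∧ Products C ∧ ProductsProper C := by
  have hone : C (Multiplicative ℤ) := hC.base.int
  refine ⟨?_, ?_, ?_, ?_⟩
  · intro G V _ _ T F ℓ w hx hs hA hM hG h
    exact main hC hcat hx hs hA hM hG h
  · intro G V _ _ T F ℓ w hx hs hA hM hf
    refine main hC hcat hx hs hA hM ?_ ?_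
    · intro x y _ g hg
      obtain ⟨n, hn, h⟩ := pow_one_of_finite (MulAction.stabilizer G x) (hf x) hg
      exact ⟨n, hn, by rw [h, one_smul]⟩
    · exact fun x => ⟨Multiplicative ℤ, inferInstance, 1, hone, (hf x).subset fun g hg => hg.1⟩
  · intro G V₁ V₂ _ _ _ T₁ T₂ h1 h2 a1 a2 hg h
    exact trees hC hcat h1 h2 a1 a2 hg h
  · intro G V₁ V₂ _ _ _ T₁ T₂ h1 h2 a1 a2 hf
    refine trees hC hcat h1 h2 a1 a2 ?_ ?_
    · intro x y g hgx hgy
      obtain ⟨n, hn, h⟩ := pow_one_of_finite
        (MulAction.stabilizer G x ⊓ MulAction.stabilizer G y) (hf x y) ⟨hgx, hgy⟩
      exact ⟨fun x' _ => ⟨n, hn, by rw [h, one_smul]⟩, fun y' _ => ⟨n, hn, by rw [h, one_smul]⟩⟩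
    · exact fun x y => ⟨Multiplicative ℤ, inferInstance, 1, hone,
        (hf x y).subset fun g hg => ⟨hg.1, hg.2.1⟩⟩

end Pool.Agent.Results.MP_551055_al.TwoDimensionalComplexes
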